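import Pool.Agent.R158.LDC.Defs

/-!
# Locating-dominating coalitions: the construction
-/

set_option autoImplicit false

namespace Pool.Agent.R158.LDC

/-- The vertices of the construction. -/
inductive Vx : Type
  | va (y : ℕ) | le (y : ℕ)
  | r (j : ℕ) (b : Bool) | p (j : ℕ) (b : Bool) | q (j : ℕ) (b : Bool)
  | xx (k : ℕ) | R (k : ℕ) (b : Bool) | U (k : ℕ) (b : Bool)
  | zz | zc | lz
  deriving DecidableEq, Inhabited

open Vx

/-- The data of the construction: the number of variables, of clauses, and the clauses. -/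
structure Dat where
  n : ℕ
  m : ℕ
  t : ℕ → ℕ × ℕ × ℕ

/-- The variable `x` occurs in the clause `j`. -/
def has (D : Dat) (j y : ℕ) : Prop := y = (D.t j).1 ∨ y = (D.t j).2.1 ∨ y = (D.t j).2.2

/-- The edges. -/
def B (D : Dat) : Vx → Vx → Prop
  | le i, va y => i = y ∧ i < D.n
  | p j _, r i _ => i = j ∧ j < D.m
  | q j _, r i _ => i = j ∧ j < D.m
  | q j _, va y => has D j y ∧ j < D.m
  | zc, va y => y < D.n
  | zc, lz => True
  | zc, xx k => k < 4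
  | zz, xx k => k < 4
  | xx k, R i _ => i = k ∧ k < 4
  | U k _, R i _ => i = k ∧ k < 4
  | _, _ => False

/-- Adjacency. -/
def Ad (D : Dat) (a b : Vx) : Prop := B D a b ∨ B D b a

/-- The vertices. -/
def Vl (D : Dat) : Vx → Prop
  | va y => y < D.n
  | le y => y < D.n
  | r j _ => j < D.m
  | p j _ => j < D.m
  | q j _ => j < D.m
  | xx k => k < 4
  | R k _ => k < 4
  | U k _ => k < 4
  | zz => True
  | zc => True
  | lz => True

/-- The clauses contain only variables. -/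
def Good (D : Dat) : Prop := ∀ j < D.m, ∀ y, has D j y → y < D.n

/-- Locating-dominating sets. -/
def LD (D : Dat) (S : Set Vx) : Prop :=
  (∀ a, Vl D a → a ∉ S → ∃ b ∈ S, Ad D a b) ∧
  ∀ a b, Vl D a → Vl D b → a ∉ S → b ∉ S → a ≠ b → ∃ c ∈ S, ¬ (Ad D a c ↔ Ad D b c)

/-- The basic sets. -/
inductive Basic (D : Dat) : List Vx → Prop
  | b1 (y : ℕ) (h : y < D.n) : Basic D [va y, le y]
  | b2r (j : ℕ) (h : j < D.m) : Basic D [r j true, r j false]
  | b2p (j : ℕ) (h : j < D.m) : Basic D [p j true, p j false]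
  | b2q (j : ℕ) (h : j < D.m) : Basic D [q j true, q j false]
  | b3 (j : ℕ) (h : j < D.m) (b c : Bool) :
      Basic D [p j b, q j c, va (D.t j).1, va (D.t j).2.1, va (D.t j).2.2]
  | b4 : Basic D [zc, lz]
  | b5r (k : ℕ) (h : k < 4) : Basic D [R k true, R k false]
  | b5u (k : ℕ) (h : k < 4) : Basic D [U k true, U k false]
  | b6 : Basic D [zz, xx 0, xx 1, xx 2, xx 3]
  | b7 (k : ℕ) (h : k < 4) (b : Bool) : Basic D [xx k, U k b, zz, zc]

theorem Basic.length_le {D : Dat} {Q : List Vx} (h : Basic D Q) : Q.length ≤ 5 := by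
  cases h <;> simp

variable {D : Dat}

theorem hit_of_ld {S : Set Vx} (hS : LD D S) {Q : List Vx} (hQ : Basic D Q) :
    ∃ a ∈ Q, a ∈ S := by
  obtain ⟨h1, h2⟩ := hS
  by_contra hc
  push Not at hc
  cases hQ with
  | b1 x h =>
    simp only [List.mem_cons, List.not_mem_nil, or_false, forall_eq_or_imp, forall_eq] at hc
    obtain ⟨b, hb, hab⟩ := h1 (le x) h hc.2
    rcases b with _ | _ | _ | _ | _ | _ | _ | _ | _ | _ | _ <;> simp [Ad, B] at hab
    obtain ⟨rfl, _⟩ := hab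
    exact hc.1 hb
  | b2r j h =>
    simp only [List.mem_cons, List.not_mem_nil, or_false, forall_eq_or_imp, forall_eq] at hc
    obtain ⟨c, hc', hcc⟩ := h2 _ _ (show Vl D (r j true) from h) (show Vl D (r j false) from h)
      hc.1 hc.2 (by simp)
    exact hcc (by rcases c with _ | _ | _ | _ | _ | _ | _ | _ | _ | _ | _ <;> simp [Ad, B])
  | b2p j h =>
    simp only [List.mem_cons, List.not_mem_nil, or_false, forall_eq_or_imp, forall_eq] at hc
    obtain ⟨c, hc', hcc⟩ := h2 _ _ (show Vl D (p j true) from h) (show Vl D (p j false) from h)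
      hc.1 hc.2 (by simp)
    exact hcc (by rcases c with _ | _ | _ | _ | _ | _ | _ | _ | _ | _ | _ <;> simp [Ad, B])
  | b2q j h =>
    simp only [List.mem_cons, List.not_mem_nil, or_false, forall_eq_or_imp, forall_eq] at hc
    obtain ⟨c, hc', hcc⟩ := h2 _ _ (show Vl D (q j true) from h) (show Vl D (q j false) from h)
      hc.1 hc.2 (by simp)
    exact hcc (by rcases c with _ | _ | _ | _ | _ | _ | _ | _ | _ | _ | _ <;> simp [Ad, B])
  | b3 j h b c =>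
    simp only [List.mem_cons, List.not_mem_nil, or_false, forall_eq_or_imp, forall_eq] at hc
    obtain ⟨d, hd, hdd⟩ := h2 _ _ (show Vl D (p j b) from h) (show Vl D (q j c) from h)
      hc.1 hc.2.1 (by simp)
    apply hdd
    rcases d with y | _ | _ | _ | _ | _ | _ | _ | _ | _ | _ <;> simp [Ad, B]
    intro hy
    rcases hy with rfl | rfl | rfl
    · exact absurd hd hc.2.2.1
    · exact absurd hd hc.2.2.2.1
    · exact absurd hd hc.2.2.2.2
  | b4 =>
    simp only [List.mem_cons, List.not_mem_nil, or_false, forall_eq_or_imp, forall_eq] at hc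
    obtain ⟨b, hb, hab⟩ := h1 lz trivial hc.2
    rcases b with _ | _ | _ | _ | _ | _ | _ | _ | _ | _ | _ <;> simp [Ad, B] at hab
    exact hc.1 hb
  | b5r k h =>
    simp only [List.mem_cons, List.not_mem_nil, or_false, forall_eq_or_imp, forall_eq] at hc
    obtain ⟨c, hc', hcc⟩ := h2 _ _ (show Vl D (R k true) from h) (show Vl D (R k false) from h)
      hc.1 hc.2 (by simp)
    exact hcc (by rcases c with _ | _ | _ | _ | _ | _ | _ | _ | _ | _ | _ <;> simp [Ad, B])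
  | b5u k h =>
    simp only [List.mem_cons, List.not_mem_nil, or_false, forall_eq_or_imp, forall_eq] at hc
    obtain ⟨c, hc', hcc⟩ := h2 _ _ (show Vl D (U k true) from h) (show Vl D (U k false) from h)
      hc.1 hc.2 (by simp)
    exact hcc (by rcases c with _ | _ | _ | _ | _ | _ | _ | _ | _ | _ | _ <;> simp [Ad, B])
  | b6 =>
    simp only [List.mem_cons, List.not_mem_nil, or_false, forall_eq_or_imp, forall_eq] at hc
    obtain ⟨b, hb, hab⟩ := h1 zz trivial hc.1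
    rcases b with _ | _ | _ | _ | _ | k | _ | _ | _ | _ | _ <;> simp [Ad, B] at hab
    obtain ⟨_, c0, c1, c2, c3⟩ := hc
    interval_cases k
    · exact c0 hb
    · exact c1 hb
    · exact c2 hb
    · exact c3 hb
  | b7 k h b =>
    simp only [List.mem_cons, List.not_mem_nil, or_false, forall_eq_or_imp, forall_eq] at hc
    obtain ⟨d, hd, hdd⟩ := h2 _ _ (show Vl D (xx k) from h) (show Vl D (U k b) from h)
      hc.1 hc.2.1 (by simp)
    apply hdd
    rcases d with y | _ | _ | _ | _ | _ | _ | _ | _ | _ | _ <;> simp [Ad, B]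
    · exact absurd hd hc.2.2.1
    · exact absurd hd hc.2.2.2

section converse

variable {S : Set Vx} (hS : ∀ Q, Basic D Q → ∃ a ∈ Q, a ∈ S)
include hS

theorem two {a b : Vx} (h : Basic D [a, b]) : a ∈ S ∨ b ∈ S := by
  obtain ⟨c, hc, hcS⟩ := hS _ h
  simp only [List.mem_cons, List.not_mem_nil, or_false] at hc
  rcases hc with rfl | rfl
  · exact Or.inl hcS
  · exact Or.inr hcS

theorem hr {j : ℕ} (h : j < D.m) : ∃ b, r j b ∈ S := by
  rcases two hS (Basic.b2r j h) with h | h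
  exacts [⟨_, h⟩, ⟨_, h⟩]

theorem hp {j : ℕ} (h : j < D.m) : ∃ b, p j b ∈ S := by
  rcases two hS (Basic.b2p j h) with h | h
  exacts [⟨_, h⟩, ⟨_, h⟩]

theorem hq {j : ℕ} (h : j < D.m) : ∃ b, q j b ∈ S := by
  rcases two hS (Basic.b2q j h) with h | h
  exacts [⟨_, h⟩, ⟨_, h⟩]

theorem hR {k : ℕ} (h : k < 4) : ∃ b, R k b ∈ S := by
  rcases two hS (Basic.b5r k h) with h | h
  exacts [⟨_, h⟩, ⟨_, h⟩]

theorem hU {k : ℕ} (h : k < 4) : ∃ b, U k b ∈ S := by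
  rcases two hS (Basic.b5u k h) with h | h
  exacts [⟨_, h⟩, ⟨_, h⟩]

theorem dom (a : Vx) (ha : Vl D a) (hn : a ∉ S) : ∃ b ∈ S, Ad D a b := by
  rcases a with y | y | ⟨j, c⟩ | ⟨j, c⟩ | ⟨j, c⟩ | k | ⟨k, c⟩ | ⟨k, c⟩ | _ | _ | _
  · refine ⟨le y, (two hS (Basic.b1 y ha)).resolve_left hn, ?_⟩
    have : y < D.n := ha
    simp [Ad, B, this]
  · refine ⟨va y, (two hS (Basic.b1 y ha)).resolve_right hn, ?_⟩
    have : y < D.n := ha
    simp [Ad, B, this]
  · obtain ⟨b, hb⟩ := hp hS ha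
    have : j < D.m := ha
    exact ⟨_, hb, by simp [Ad, B, this]⟩
  · obtain ⟨b, hb⟩ := hr hS ha
    have : j < D.m := ha
    exact ⟨_, hb, by simp [Ad, B, this]⟩
  · obtain ⟨b, hb⟩ := hr hS ha
    have : j < D.m := ha
    exact ⟨_, hb, by simp [Ad, B, this]⟩
  · obtain ⟨b, hb⟩ := hR hS ha
    have : k < 4 := ha
    exact ⟨_, hb, by simp [Ad, B, this]⟩
  · obtain ⟨b, hb⟩ := hU hS ha
    have : k < 4 := ha
    exact ⟨_, hb, by simp [Ad, B, this]⟩
  · obtain ⟨b, hb⟩ := hR hS ha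
    have : k < 4 := ha
    exact ⟨_, hb, by simp [Ad, B, this]⟩
  · obtain ⟨a, ha, haS⟩ := hS _ Basic.b6
    simp only [List.mem_cons, List.not_mem_nil, or_false] at ha
    rcases ha with rfl | rfl | rfl | rfl | rfl
    · exact absurd haS hn
    · exact ⟨_, haS, by simp [Ad, B]⟩
    · exact ⟨_, haS, by simp [Ad, B]⟩
    · exact ⟨_, haS, by simp [Ad, B]⟩
    · exact ⟨_, haS, by simp [Ad, B]⟩
  · exact ⟨lz, (two hS Basic.b4).resolve_left hn, by simp [Ad, B]⟩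
  · exact ⟨zc, (two hS Basic.b4).resolve_right hn, by simp [Ad, B]⟩

/-- The vertices are separated. -/
def Sep (D : Dat) (S : Set Vx) (a b : Vx) : Prop := ∃ c ∈ S, ¬ (Ad D a c ↔ Ad D b c)

omit hS in
theorem Sep.symm {a b : Vx} (h : Sep D S a b) : Sep D S b a := by
  obtain ⟨c, hc, h⟩ := h
  exact ⟨c, hc, fun h' => h h'.symm⟩

theorem sep_va (y : ℕ) (a : Vx) (h1 : Vl D (va y)) (n1 : va y ∉ S) (h : va y ≠ a) :
    Sep D S (va y) a := by
  have hy : y < D.n := h1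
  refine ⟨le y, (two hS (Basic.b1 y h1)).resolve_left n1, ?_⟩
  rcases a with i | i | ⟨i, d⟩ | ⟨i, d⟩ | ⟨i, d⟩ | i | ⟨i, d⟩ | ⟨i, d⟩ | _ | _ | _ <;>
    simp [Ad, B, hy] at h ⊢
  exact h

theorem sep_zc (a : Vx) (n1 : zc ∉ S) (h : zc ≠ a) : Sep D S zc a := by
  refine ⟨lz, (two hS Basic.b4).resolve_left n1, ?_⟩
  rcases a with i | i | ⟨i, d⟩ | ⟨i, d⟩ | ⟨i, d⟩ | i | ⟨i, d⟩ | ⟨i, d⟩ | _ | _ | _ <;>
    simp [Ad, B] at h ⊢

theorem sep_r (j : ℕ) (c : Bool) (a : Vx) (h1 : Vl D (r j c)) (n1 : r j c ∉ S) (n2 : a ∉ S)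
    (h : r j c ≠ a) : Sep D S (r j c) a := by
  have hj : j < D.m := h1
  obtain ⟨b, hb⟩ := hp hS hj
  refine ⟨_, hb, ?_⟩
  rcases a with i | i | ⟨i, d⟩ | ⟨i, d⟩ | ⟨i, d⟩ | i | ⟨i, d⟩ | ⟨i, d⟩ | _ | _ | _ <;>
    simp [Ad, B, hj] at h ⊢
  rintro rfl
  obtain ⟨e, he⟩ := hr hS hj
  have : e = c ∨ e = d := by
    have := h rfl
    revert this
    cases c <;> cases d <;> cases e <;> simp
  rcases this with rfl | rfl
  · exact n1 he
  · exact n2 he

theorem sep_p (j : ℕ) (c : Bool) (a : Vx) (h1 : Vl D (p j c)) (n1 : p j c ∉ S) (n2 : a ∉ S)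
    (h : p j c ≠ a) : Sep D S (p j c) a := by
  have hj : j < D.m := h1
  obtain ⟨b, hb⟩ := hr hS hj
  by_cases hq : ∃ d, a = q j d
  · obtain ⟨d, rfl⟩ := hq
    obtain ⟨e, he, heS⟩ := hS _ (Basic.b3 j hj c d)
    simp only [List.mem_cons, List.not_mem_nil, or_false] at he
    rcases he with rfl | rfl | rfl | rfl | rfl
    · exact absurd heS n1
    · exact absurd heS n2
    · exact ⟨_, heS, by simp [Ad, B, has, hj]⟩
    · exact ⟨_, heS, by simp [Ad, B, has, hj]⟩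
    · exact ⟨_, heS, by simp [Ad, B, has, hj]⟩
  refine ⟨_, hb, ?_⟩
  rcases a with i | i | ⟨i, d⟩ | ⟨i, d⟩ | ⟨i, d⟩ | i | ⟨i, d⟩ | ⟨i, d⟩ | _ | _ | _ <;>
    simp [Ad, B, hj] at h hq ⊢
  · rintro rfl
    obtain ⟨e, he⟩ := hp hS hj
    have : e = c ∨ e = d := by
      have := h rfl
      revert this
      cases c <;> cases d <;> cases e <;> simp
    rcases this with rfl | rfl
    · exact absurd he n1
    · exact absurd he n2
  · rintro rfl
    exact absurd rfl hq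

theorem sep_q (j : ℕ) (c : Bool) (a : Vx) (h1 : Vl D (q j c)) (h2 : Vl D a) (n1 : q j c ∉ S)
    (n2 : a ∉ S) (h : q j c ≠ a) : Sep D S (q j c) a := by
  have hj : j < D.m := h1
  obtain ⟨b, hb⟩ := hr hS hj
  by_cases hq : ∃ i d, a = p i d
  · obtain ⟨i, d, rfl⟩ := hq
    exact (sep_p hS i d _ h2 n2 n1 h.symm).symm
  refine ⟨_, hb, ?_⟩
  rcases a with i | i | ⟨i, d⟩ | ⟨i, d⟩ | ⟨i, d⟩ | i | ⟨i, d⟩ | ⟨i, d⟩ | _ | _ | _ <;>
    simp [Ad, B, hj] at h hq ⊢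
  rintro rfl
  obtain ⟨e, he⟩ := Pool.Agent.R158.LDC.hq hS hj
  have : e = c ∨ e = d := by
    have := h rfl
    revert this
    cases c <;> cases d <;> cases e <;> simp
  rcases this with rfl | rfl
  · exact absurd he n1
  · exact absurd he n2

theorem sep_R (k : ℕ) (c : Bool) (a : Vx) (h1 : Vl D (R k c)) (n1 : R k c ∉ S) (n2 : a ∉ S)
    (h : R k c ≠ a) : Sep D S (R k c) a := by
  have hk : k < 4 := h1
  obtain ⟨b, hb⟩ := hU hS hk
  refine ⟨_, hb, ?_⟩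
  rcases a with i | i | ⟨i, d⟩ | ⟨i, d⟩ | ⟨i, d⟩ | i | ⟨i, d⟩ | ⟨i, d⟩ | _ | _ | _ <;>
    simp [Ad, B, hk] at h ⊢
  rintro rfl
  obtain ⟨e, he⟩ := hR hS hk
  have : e = c ∨ e = d := by
    have := h rfl
    revert this
    cases c <;> cases d <;> cases e <;> simp
  rcases this with rfl | rfl
  · exact n1 he
  · exact n2 he

theorem sep_U (k : ℕ) (c : Bool) (a : Vx) (h1 : Vl D (U k c)) (n1 : U k c ∉ S) (n2 : a ∉ S)
    (h : U k c ≠ a) : Sep D S (U k c) a := by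
  have hk : k < 4 := h1
  obtain ⟨b, hb⟩ := hR hS hk
  by_cases hx : a = xx k
  · subst hx
    obtain ⟨e, he, heS⟩ := hS _ (Basic.b7 k hk c)
    simp only [List.mem_cons, List.not_mem_nil, or_false] at he
    rcases he with rfl | rfl | rfl | rfl
    · exact absurd heS n2
    · exact absurd heS n1
    · exact ⟨_, heS, by simp [Ad, B, hk]⟩
    · exact ⟨_, heS, by simp [Ad, B, hk]⟩
  refine ⟨_, hb, ?_⟩
  rcases a with i | i | ⟨i, d⟩ | ⟨i, d⟩ | ⟨i, d⟩ | i | ⟨i, d⟩ | ⟨i, d⟩ | _ | _ | _ <;>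
    simp [Ad, B, hk] at h hx ⊢
  · rintro rfl
    exact absurd rfl hx
  · rintro rfl
    obtain ⟨e, he⟩ := hU hS hk
    have : e = c ∨ e = d := by
      have := h rfl
      revert this
      cases c <;> cases d <;> cases e <;> simp
    rcases this with rfl | rfl
    · exact absurd he n1
    · exact absurd he n2

theorem sep_xx (k : ℕ) (a : Vx) (h1 : Vl D (xx k)) (h2 : Vl D a) (n1 : xx k ∉ S) (n2 : a ∉ S)
    (h : xx k ≠ a) : Sep D S (xx k) a := by
  have hk : k < 4 := h1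
  obtain ⟨b, hb⟩ := hR hS hk
  by_cases hq : ∃ i d, a = U i d
  · obtain ⟨i, d, rfl⟩ := hq
    exact (sep_U hS i d _ h2 n2 n1 h.symm).symm
  refine ⟨_, hb, ?_⟩
  rcases a with i | i | ⟨i, d⟩ | ⟨i, d⟩ | ⟨i, d⟩ | i | ⟨i, d⟩ | ⟨i, d⟩ | _ | _ | _ <;>
    simp [Ad, B, hk] at h hq ⊢
  omega

theorem sep_le (y : ℕ) (a : Vx) (h1 : Vl D (le y)) (h2 : Vl D a) (n1 : le y ∉ S) (n2 : a ∉ S)
    (h : le y ≠ a) : Sep D S (le y) a := by
  have hy : y < D.n := h1
  by_cases hz : a = zc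
  · subst hz
    exact (sep_zc hS _ n2 h.symm).symm
  by_cases hq : ∃ i d, a = q i d
  · obtain ⟨i, d, rfl⟩ := hq
    exact (sep_q hS i d _ h2 h1 n2 n1 h.symm).symm
  refine ⟨va y, (two hS (Basic.b1 y h1)).resolve_right n1, ?_⟩
  rcases a with i | i | ⟨i, d⟩ | ⟨i, d⟩ | ⟨i, d⟩ | i | ⟨i, d⟩ | ⟨i, d⟩ | _ | _ | _ <;>
    simp [Ad, B, hy] at h hq hz ⊢
  omega

theorem ld_of_hit : LD D S := by
  refine ⟨dom hS, ?_⟩
  intro a b h1 h2 n1 n2 h
  change Sep D S a b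
  rcases a with i | i | ⟨i, d⟩ | ⟨i, d⟩ | ⟨i, d⟩ | i | ⟨i, d⟩ | ⟨i, d⟩ | _ | _ | _
  · exact sep_va hS _ _ h1 n1 h
  · exact sep_le hS _ _ h1 h2 n1 n2 h
  · exact sep_r hS _ _ _ h1 n1 n2 h
  · exact sep_p hS _ _ _ h1 n1 n2 h
  · exact sep_q hS _ _ _ h1 h2 n1 n2 h
  · exact sep_xx hS _ _ h1 h2 n1 n2 h
  · exact sep_R hS _ _ _ h1 n1 n2 h
  · exact sep_U hS _ _ _ h1 n1 n2 h
  · rcases b with i | i | ⟨i, d⟩ | ⟨i, d⟩ | ⟨i, d⟩ | i | ⟨i, d⟩ | ⟨i, d⟩ | _ | _ | _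
    · exact (sep_va hS _ _ h2 n2 h.symm).symm
    · exact (sep_le hS _ _ h2 h1 n2 n1 h.symm).symm
    · exact (sep_r hS _ _ _ h2 n2 n1 h.symm).symm
    · exact (sep_p hS _ _ _ h2 n2 n1 h.symm).symm
    · exact (sep_q hS _ _ _ h2 h1 n2 n1 h.symm).symm
    · exact (sep_xx hS _ _ h2 h1 n2 n1 h.symm).symm
    · exact (sep_R hS _ _ _ h2 n2 n1 h.symm).symm
    · exact (sep_U hS _ _ _ h2 n2 n1 h.symm).symm
    · exact absurd rfl h
    · exact (sep_zc hS _ n2 h.symm).symm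
    · exact ⟨zc, (two hS Basic.b4).resolve_right n2, by simp [Ad, B]⟩
  · exact sep_zc hS _ n1 h
  · rcases b with i | i | ⟨i, d⟩ | ⟨i, d⟩ | ⟨i, d⟩ | i | ⟨i, d⟩ | ⟨i, d⟩ | _ | _ | _
    · exact (sep_va hS _ _ h2 n2 h.symm).symm
    · exact (sep_le hS _ _ h2 h1 n2 n1 h.symm).symm
    · exact (sep_r hS _ _ _ h2 n2 n1 h.symm).symm
    · exact (sep_p hS _ _ _ h2 n2 n1 h.symm).symm
    · exact (sep_q hS _ _ _ h2 h1 n2 n1 h.symm).symm
    · exact (sep_xx hS _ _ h2 h1 n2 n1 h.symm).symm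
    · exact (sep_R hS _ _ _ h2 n2 n1 h.symm).symm
    · exact (sep_U hS _ _ _ h2 n2 n1 h.symm).symm
    · exact ⟨zc, (two hS Basic.b4).resolve_right n1, by simp [Ad, B]⟩
    · exact (sep_zc hS _ n2 h.symm).symm
    · exact absurd rfl h

end converse

end Pool.Agent.R158.LDC
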