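import Pool.Agent.R158.LDC.Core

/-!
# Locating-dominating coalitions: correctness of the construction
-/

set_option autoImplicit false

namespace Pool.Agent.R158.LDC

open Vx

variable {D : Dat}

theorem ld_iff {S : Set Vx} : LD D S ↔ ∀ Q, Basic D Q → ∃ a ∈ Q, a ∈ S :=
  ⟨fun h _ hQ => hit_of_ld h hQ, ld_of_hit⟩

/-- The partition given by a truth assignment. -/
def gf (τ : ℕ → Bool) : Vx → ℕ
  | va y => if τ y then 4 else 6
  | le y => if τ y then 6 else 4
  | r _ b => if b then 4 else 6
  | p _ b => if b then 4 else 6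
  | q _ b => if b then 4 else 6
  | xx k => k
  | R _ b => if b then 4 else 6
  | U _ b => if b then 4 else 6
  | zz => 6
  | zc => 4
  | lz => 5

/-- The classes. -/
def cl (D : Dat) (g : Vx → ℕ) (i : ℕ) : Set Vx := {a | Vl D a ∧ g a = i}

/-- The assignment satisfies the instance. -/
def SatD (D : Dat) (τ : ℕ → Bool) : Prop :=
  ∀ j < D.m, ¬ (τ (D.t j).1 = τ (D.t j).2.1 ∧ τ (D.t j).2.1 = τ (D.t j).2.2)

theorem ld_red (hD : Good D) {τ : ℕ → Bool} (hτ : SatD D τ) (k : ℕ) (hk : k < 4) :
    LD D (cl D (gf τ) k ∪ cl D (gf τ) 4) := by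
  rw [ld_iff]
  intro Q hQ
  cases hQ with
  | b1 y h =>
    by_cases ht : τ y = true
    · exact ⟨va y, by simp, Or.inr ⟨h, by simp [gf, ht]⟩⟩
    · exact ⟨le y, by simp, Or.inr ⟨h, by simp [gf, ht]⟩⟩
  | b2r j h => exact ⟨r j true, by simp, Or.inr ⟨h, by simp [gf]⟩⟩
  | b2p j h => exact ⟨p j true, by simp, Or.inr ⟨h, by simp [gf]⟩⟩
  | b2q j h => exact ⟨q j true, by simp, Or.inr ⟨h, by simp [gf]⟩⟩
  | b3 j h b c =>
    have h1 := hD j h
    have h2 := hτ j h
    by_cases t1 : τ (D.t j).1 = true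
    · exact ⟨va (D.t j).1, by simp, Or.inr ⟨h1 _ (Or.inl rfl), by simp [gf, t1]⟩⟩
    by_cases t2 : τ (D.t j).2.1 = true
    · exact ⟨va (D.t j).2.1, by simp, Or.inr ⟨h1 _ (Or.inr (Or.inl rfl)), by simp [gf, t2]⟩⟩
    by_cases t3 : τ (D.t j).2.2 = true
    · exact ⟨va (D.t j).2.2, by simp, Or.inr ⟨h1 _ (Or.inr (Or.inr rfl)), by simp [gf, t3]⟩⟩
    exact absurd (by simp [t1, t2, t3]) h2
  | b4 => exact ⟨zc, by simp, Or.inr ⟨trivial, by simp [gf]⟩⟩
  | b5r k h => exact ⟨R k true, by simp, Or.inr ⟨h, by simp [gf]⟩⟩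
  | b5u k h => exact ⟨U k true, by simp, Or.inr ⟨h, by simp [gf]⟩⟩
  | b6 =>
    refine ⟨xx k, ?_, Or.inl ⟨hk, rfl⟩⟩
    interval_cases k <;> simp
  | b7 k h b => exact ⟨zc, by simp, Or.inr ⟨trivial, by simp [gf]⟩⟩

theorem ld_blue (hD : Good D) {τ : ℕ → Bool} (hτ : SatD D τ) :
    LD D (cl D (gf τ) 5 ∪ cl D (gf τ) 6) := by
  rw [ld_iff]
  intro Q hQ
  cases hQ with
  | b1 y h =>
    by_cases ht : τ y = true
    · exact ⟨le y, by simp, Or.inr ⟨h, by simp [gf, ht]⟩⟩
    · exact ⟨va y, by simp, Or.inr ⟨h, by simp [gf, ht]⟩⟩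
  | b2r j h => exact ⟨r j false, by simp, Or.inr ⟨h, by simp [gf]⟩⟩
  | b2p j h => exact ⟨p j false, by simp, Or.inr ⟨h, by simp [gf]⟩⟩
  | b2q j h => exact ⟨q j false, by simp, Or.inr ⟨h, by simp [gf]⟩⟩
  | b3 j h b c =>
    have h1 := hD j h
    have h2 := hτ j h
    by_cases t1 : τ (D.t j).1 = true
    · by_cases t2 : τ (D.t j).2.1 = true
      · by_cases t3 : τ (D.t j).2.2 = true
        · exact absurd (by simp [t1, t2, t3]) h2
        · exact ⟨va (D.t j).2.2, by simp, Or.inr ⟨h1 _ (Or.inr (Or.inr rfl)), by simp [gf, t3]⟩⟩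
      · exact ⟨va (D.t j).2.1, by simp, Or.inr ⟨h1 _ (Or.inr (Or.inl rfl)), by simp [gf, t2]⟩⟩
    · exact ⟨va (D.t j).1, by simp, Or.inr ⟨h1 _ (Or.inl rfl), by simp [gf, t1]⟩⟩
  | b4 => exact ⟨lz, by simp, Or.inl ⟨trivial, by simp [gf]⟩⟩
  | b5r k h => exact ⟨R k false, by simp, Or.inr ⟨h, by simp [gf]⟩⟩
  | b5u k h => exact ⟨U k false, by simp, Or.inr ⟨h, by simp [gf]⟩⟩
  | b6 => exact ⟨zz, by simp, Or.inr ⟨trivial, by simp [gf]⟩⟩
  | b7 k h b => exact ⟨zz, by simp, Or.inr ⟨trivial, by simp [gf]⟩⟩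

theorem not_ld {S : Set Vx} {Q : List Vx} (hQ : Basic D Q) (h : ∀ a ∈ Q, a ∉ S) : ¬ LD D S := by
  intro h'
  obtain ⟨a, ha, haS⟩ := hit_of_ld h' hQ
  exact h a ha haS

/-- A satisfying assignment gives a partition with seven classes. -/
theorem forward (hD : Good D) {τ : ℕ → Bool} (hτ : SatD D τ) :
    ∀ i < 7, ¬ LD D (cl D (gf τ) i) ∧ ∃ j < 7, j ≠ i ∧ LD D (cl D (gf τ) i ∪ cl D (gf τ) j) := by
  intro i hi
  have hsmall : ∀ k, k < 4 → ¬ LD D (cl D (gf τ) k) := by
    intro k hk
    refine not_ld Basic.b4 ?_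
    simp only [List.mem_cons, List.not_mem_nil, or_false, forall_eq_or_imp, forall_eq]
    exact ⟨fun h => by have := h.2; simp [gf] at this; omega,
      fun h => by have := h.2; simp [gf] at this; omega⟩
  by_cases h4 : i < 4
  · exact ⟨hsmall i h4, 4, by omega, by omega, ld_red hD hτ i h4⟩
  have h3 : i = 4 ∨ i = 5 ∨ i = 6 := by omega
  rcases h3 with rfl | rfl | rfl
  · refine ⟨?_, 0, by omega, by omega, ?_⟩
    · refine not_ld Basic.b6 ?_
      simp only [List.mem_cons, List.not_mem_nil, or_false, forall_eq_or_imp, forall_eq]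
      exact ⟨fun h => by have := h.2; simp [gf] at this, fun h => by have := h.2; simp [gf] at this,
        fun h => by have := h.2; simp [gf] at this, fun h => by have := h.2; simp [gf] at this,
        fun h => by have := h.2; simp [gf] at this⟩
    · rw [Set.union_comm]
      exact ld_red hD hτ 0 (by omega)
  · refine ⟨?_, 6, by omega, by omega, ld_blue hD hτ⟩
    refine not_ld (Basic.b5u 0 (by omega)) ?_
    simp only [List.mem_cons, List.not_mem_nil, or_false, forall_eq_or_imp, forall_eq]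
    exact ⟨fun h => by have := h.2; simp [gf] at this, fun h => by have := h.2; simp [gf] at this⟩
  · refine ⟨?_, 5, by omega, by omega, ?_⟩
    · refine not_ld Basic.b4 ?_
      simp only [List.mem_cons, List.not_mem_nil, or_false, forall_eq_or_imp, forall_eq]
      exact ⟨fun h => by have := h.2; simp [gf] at this, fun h => by have := h.2; simp [gf] at this⟩
    · rw [Set.union_comm]
      exact ld_blue hD hτ

/-- Two disjoint locating-dominating sets give a satisfying assignment. -/
theorem of_disjoint {S T : Set Vx} (hS : LD D S) (hT : LD D T) (hST : ∀ a, a ∈ S → a ∉ T)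
    (hD : Good D) : ∃ τ : ℕ → Bool, SatD D τ := by
  classical
  refine ⟨fun y => decide (va y ∈ S), ?_⟩
  intro j hj
  rw [decide_eq_decide, decide_eq_decide]
  rintro ⟨h1, h2⟩
  have hS' := ld_iff.1 hS
  have hT' := ld_iff.1 hT
  have key : ∀ y, y < D.n → va y ∉ S → va y ∈ T := by
    intro y hy hn
    have h3 : le y ∈ S := (two hS' (Basic.b1 y hy)).resolve_left hn
    exact (two hT' (Basic.b1 y hy)).resolve_right (hST _ h3)
  by_cases h : va (D.t j).1 ∈ S
  · obtain ⟨b, hb⟩ := hp hS' hj
    obtain ⟨c, hc⟩ := hq hS' hj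
    obtain ⟨e, he, heT⟩ := hT' _ (Basic.b3 j hj b c)
    simp only [List.mem_cons, List.not_mem_nil, or_false] at he
    rcases he with rfl | rfl | rfl | rfl | rfl
    · exact hST _ hb heT
    · exact hST _ hc heT
    · exact hST _ h heT
    · exact hST _ (h1.1 h) heT
    · exact hST _ (h2.1 (h1.1 h)) heT
  · have g2 : va (D.t j).2.1 ∉ S := fun h' => h (h1.2 h')
    have g3 : va (D.t j).2.2 ∉ S := fun h' => g2 (h2.2 h')
    obtain ⟨b, hb⟩ := hp hT' hj
    obtain ⟨c, hc⟩ := hq hT' hj
    obtain ⟨e, he, heT⟩ := hS' _ (Basic.b3 j hj b c)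
    simp only [List.mem_cons, List.not_mem_nil, or_false] at he
    rcases he with rfl | rfl | rfl | rfl | rfl
    · exact hST _ heT hb
    · exact hST _ heT hc
    · exact h heT
    · exact g2 heT
    · exact g3 heT

/-- Classes of a partition with at least seven classes contain two disjoint locating-dominating
unions. -/
theorem exists_disjoint {k : ℕ} (hk : 7 ≤ k) (C : ℕ → Set Vx)
    (hC : ∀ i j a, a ∈ C i → a ∈ C j → i = j)
    (h : ∀ i < k, ¬ LD D (C i) ∧ ∃ j < k, j ≠ i ∧ LD D (C i ∪ C j)) :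
    ∃ S T : Set Vx, LD D S ∧ LD D T ∧ ∀ a, a ∈ S → a ∉ T := by
  classical
  by_contra hno
  push Not at hno
  -- two coalitions share a class
  have share : ∀ i j i' j', LD D (C i ∪ C j) → LD D (C i' ∪ C j') →
      i = i' ∨ i = j' ∨ j = i' ∨ j = j' := by
    intro i j i' j' h1 h2
    obtain ⟨a, ha, ha'⟩ := hno _ _ h1 h2
    rcases ha with ha | ha <;> rcases ha' with ha' | ha'
    · exact Or.inl (hC _ _ _ ha ha')
    · exact Or.inr (Or.inl (hC _ _ _ ha ha'))
    · exact Or.inr (Or.inr (Or.inl (hC _ _ _ ha ha')))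
    · exact Or.inr (Or.inr (Or.inr (hC _ _ _ ha ha')))
  choose g hg using fun i : ℕ => fun hi : i < k => (h i hi).2
  -- a centre
  obtain ⟨c, hc, hcc⟩ : ∃ c < k, ∀ i < k, i ≠ c → LD D (C i ∪ C c) := by
    have h0 : 0 < k := by omega
    set b := g 0 h0 with hb
    have hb1 := hg 0 h0
    rw [← hb] at hb1
    by_cases hall : ∀ i, ∀ hi : i < k, i ≠ 0 → i ≠ b → g i hi = 0
    · refine ⟨0, h0, fun i hi hi0 => ?_⟩
      by_cases hib : i = b
      · rw [hib, Set.union_comm]
        exact hb1.2.2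
      · have := (hg i hi).2.2
        rw [hall i hi hi0 hib] at this
        exact this
    · push Not at hall
      obtain ⟨i, hi, hi0, hib, hgi⟩ := hall
      have hgib : g i hi = b := by
        rcases share _ _ _ _ (hg i hi).2.2 hb1.2.2 with h' | h' | h' | h'
        · exact absurd h' hi0
        · exact absurd h' hib
        · exact absurd h' hgi
        · exact h'
      have hci : LD D (C i ∪ C b) := by
        have := (hg i hi).2.2
        rwa [hgib] at this
      refine ⟨b, hb1.1, fun j hj hjb => ?_⟩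
      by_cases hj0 : j = 0
      · subst hj0
        exact hb1.2.2
      · by_cases hji : j = i
        · subst hji
          exact hci
        · have hgj := (hg j hj).2.2
          have e1 := share _ _ _ _ hgj hci
          have e2 := share _ _ _ _ hgj hb1.2.2
          have : g j hj = b := by
            rcases e1 with h' | h' | h' | h'
            · exact absurd h' hji
            · exact absurd h' hjb
            · rcases e2 with h'' | h'' | h'' | h''
              · exact absurd h'' hj0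
              · exact absurd h'' hjb
              · exact absurd (h'.symm.trans h'') hi0
              · exact h''
            · exact h'
          rw [this] at hgj
          exact hgj
  -- a basic set missed by the centre
  have hn := (h c hc).1
  rw [ld_iff] at hn
  push Not at hn
  obtain ⟨Q, hQ, hQc⟩ := hn
  have hex : ∀ i, i < k → i ≠ c → ∃ a ∈ Q, a ∈ C i := by
    intro i hi hic
    obtain ⟨a, ha, haS⟩ := hit_of_ld (hcc i hi hic) hQ
    rcases haS with haS | haS
    · exact ⟨a, ha, haS⟩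
    · exact absurd haS (hQc a ha)
  choose! f hf1 hf2 using hex
  have hcard : ((Finset.range k).erase c).card ≤ Q.toFinset.card := by
    refine Finset.card_le_card_of_injOn f ?_ ?_
    · intro i hi
      simp only [Finset.coe_erase, Finset.coe_range, Set.mem_sdiff, Set.mem_Iio,
        Set.mem_singleton_iff] at hi
      simp only [List.coe_toFinset, Set.mem_ofPred_eq]
      exact hf1 i hi.1 hi.2
    · intro i hi j hj hij
      simp only [Finset.coe_erase, Finset.coe_range, Set.mem_sdiff, Set.mem_Iio,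
        Set.mem_singleton_iff] at hi hj
      have e1 := hf2 i hi.1 hi.2
      have e2 := hf2 j hj.1 hj.2
      rw [← hij] at e2
      exact hC _ _ _ e1 e2
  rw [Finset.card_erase_of_mem (Finset.mem_range.2 hc), Finset.card_range] at hcard
  have := List.toFinset_card_le Q
  have := hQ.length_le
  omega

end Pool.Agent.R158.LDC
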