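import Mathlib

/-!
# Locating-dominating coalitions: the problem
-/

namespace Pool.Agent.R158.LDC

/-- An instance: the list of the vertices and the list of the edges. -/
abbrev Gr : Type := List ℕ × List (ℕ × ℕ)

/-- The instance is a simple graph: the vertices are listed without repetition and every edge joins
two different vertices. -/
def IsGraph (I : Gr) : Prop := I.1.Nodup ∧ ∀ e ∈ I.2, e.1 ∈ I.1 ∧ e.2 ∈ I.1 ∧ e.1 ≠ e.2

/-- Adjacency: edges are unordered pairs. -/
def Adj (I : Gr) (u v : ℕ) : Prop := (u, v) ∈ I.2 ∨ (v, u) ∈ I.2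

/-- The graph has a vertex and any two vertices are joined by a walk. -/
def Connected (I : Gr) : Prop :=
  I.1 ≠ [] ∧ ∀ u ∈ I.1, ∀ v ∈ I.1, Relation.ReflTransGen (Adj I) u v

/-- `D` is a locating-dominating set: every vertex outside `D` has a neighbour in `D`, and any two
different vertices outside `D` have different sets of neighbours in `D`. -/
def IsLD (I : Gr) (D : Set ℕ) : Prop :=
  (∀ v ∈ I.1, v ∉ D → ∃ u ∈ D, Adj I v u) ∧
  ∀ u ∈ I.1, ∀ v ∈ I.1, u ∉ D → v ∉ D → u ≠ v → {w | Adj I u w} ∩ D ≠ {w | Adj I v w} ∩ D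

/-- The part number `i` of the partition of the vertices given by `f`. -/
def part (I : Gr) (f : ℕ → ℕ) (i : ℕ) : Set ℕ := {v | v ∈ I.1 ∧ f v = i}

/-- The function `f` gives an LDC-partition with `k` (nonempty) parts: no part is an LD-set, and
the union of every part with some other part is an LD-set. -/
def LDCPartition (I : Gr) (k : ℕ) (f : ℕ → ℕ) : Prop :=
  (∀ v ∈ I.1, f v < k) ∧ (∀ i < k, ∃ v ∈ I.1, f v = i) ∧
  ∀ i < k, ¬ IsLD I (part I f i) ∧ ∃ j < k, j ≠ i ∧ IsLD I (part I f i ∪ part I f j)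

/-- The problem LDC: is the instance `(G, k)` a connected graph with an LDC-partition with at least
`k` parts? -/
def LDC (x : Gr × ℕ) : Prop :=
  IsGraph x.1 ∧ Connected x.1 ∧ ∃ m, x.2 ≤ m ∧ ∃ f : ℕ → ℕ, LDCPartition x.1 m f

/-- The problem LDC with a fixed `k`. -/
def LDCk (k : ℕ) (I : Gr) : Prop := LDC (I, k)

end Pool.Agent.R158.LDC
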