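import Pool.Agent.R544.Nae3
import Pool.Agent.R158.LDC.Corr

/-!
# Locating-dominating coalitions: the reduction
-/

set_option autoImplicit false

namespace Pool.Agent.R158.LDC

open Vx Pool.Agent.NPC Pool.Agent.R544

/-- The number of a vertex. -/
def code : Vx → ℕ
  | va y => 16 * y
  | le y => 16 * y + 1
  | r j b => 16 * j + (if b then 2 else 3)
  | p j b => 16 * j + (if b then 4 else 5)
  | q j b => 16 * j + (if b then 6 else 7)
  | xx k => 16 * k + 8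
  | R k b => 16 * k + (if b then 9 else 10)
  | U k b => 16 * k + (if b then 11 else 12)
  | zz => 13
  | zc => 14
  | lz => 15

theorem code_inj : Function.Injective code := by
  intro a b h
  rcases a with i | i | ⟨i, c⟩ | ⟨i, c⟩ | ⟨i, c⟩ | i | ⟨i, c⟩ | ⟨i, c⟩ | _ | _ | _ <;>
    rcases b with j | j | ⟨j, d⟩ | ⟨j, d⟩ | ⟨j, d⟩ | j | ⟨j, d⟩ | ⟨j, d⟩ | _ | _ | _ <;>
    (try cases c) <;> (try cases d) <;>
    simp only [code, if_true, if_false, Bool.false_eq_true, reduceCtorEq, Vx.va.injEq,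
      Vx.le.injEq, Vx.r.injEq, Vx.p.injEq, Vx.q.injEq, Vx.xx.injEq, Vx.R.injEq, Vx.U.injEq,
      and_true, and_false] at h ⊢ <;> omega

/-- The vertices. -/
def lV (n m : ℕ) : List ℕ :=
  ((List.range n).flatMap (fun y => [16 * y, 16 * y + 1]) ++
  (List.range m).flatMap (fun j => [16 * j + 2, 16 * j + 3, 16 * j + 4, 16 * j + 5, 16 * j + 6,
    16 * j + 7]) ++
  (List.range 4).flatMap (fun k => [16 * k + 8, 16 * k + 9, 16 * k + 10, 16 * k + 11,
    16 * k + 12]) ++ [13, 14, 15]).dedup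

/-- The edges of the gadget of a clause. -/
def lC (j : ℕ) (t : ℕ × ℕ × ℕ) : List (ℕ × ℕ) :=
  [(16 * j + 4, 16 * j + 2), (16 * j + 4, 16 * j + 3), (16 * j + 5, 16 * j + 2),
    (16 * j + 5, 16 * j + 3), (16 * j + 6, 16 * j + 2), (16 * j + 6, 16 * j + 3),
    (16 * j + 7, 16 * j + 2), (16 * j + 7, 16 * j + 3), (16 * j + 6, 16 * t.1),
    (16 * j + 6, 16 * t.2.1), (16 * j + 6, 16 * t.2.2), (16 * j + 7, 16 * t.1),
    (16 * j + 7, 16 * t.2.1), (16 * j + 7, 16 * t.2.2)]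

/-- The edges of the additional gadget. -/
def lG : List (ℕ × ℕ) :=
  (14, 15) :: (List.range 4).flatMap (fun k => [(14, 16 * k + 8), (13, 16 * k + 8),
    (16 * k + 8, 16 * k + 9), (16 * k + 8, 16 * k + 10), (16 * k + 11, 16 * k + 9),
    (16 * k + 11, 16 * k + 10), (16 * k + 12, 16 * k + 9), (16 * k + 12, 16 * k + 10)])

/-- The data of the construction. -/
def dat (φ : N3) : Dat where
  n := 3 * φ.length
  m := φ.length
  t := fun j => tr φ j

/-- The instance. -/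
def red (φ : N3) : Gr :=
  (lV (3 * φ.length) φ.length,
    (List.range (3 * φ.length)).flatMap (fun y => [(16 * y + 1, 16 * y), (14, 16 * y)]) ++
    ((List.range φ.length).flatMap (fun j => lC j (tr φ j)) ++ lG))

theorem good_dat {φ : N3} (hb : BN φ) : Good (dat φ) := by
  intro j hj y hy
  have := hb _ (tr_mem hj)
  rcases hy with rfl | rfl | rfl
  · exact this.1
  · exact this.2.1
  · exact this.2.2

theorem mem_V {φ : N3} {w : ℕ} : w ∈ (red φ).1 ↔ ∃ a, Vl (dat φ) a ∧ code a = w := by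
  unfold red lV
  simp only [List.mem_dedup, List.mem_append, List.mem_flatMap, List.mem_range, List.mem_cons,
    List.not_mem_nil, or_false]
  constructor
  · rintro (((⟨y, hy, rfl | rfl⟩ | ⟨j, hj, rfl | rfl | rfl | rfl | rfl | rfl⟩) |
      ⟨k, hk, rfl | rfl | rfl | rfl | rfl⟩) | rfl | rfl | rfl)
    · exact ⟨va y, hy, rfl⟩
    · exact ⟨le y, hy, rfl⟩
    · exact ⟨r j true, hj, rfl⟩
    · exact ⟨r j false, hj, rfl⟩
    · exact ⟨p j true, hj, rfl⟩
    · exact ⟨p j false, hj, rfl⟩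
    · exact ⟨q j true, hj, rfl⟩
    · exact ⟨q j false, hj, rfl⟩
    · exact ⟨xx k, hk, rfl⟩
    · exact ⟨R k true, hk, rfl⟩
    · exact ⟨R k false, hk, rfl⟩
    · exact ⟨U k true, hk, rfl⟩
    · exact ⟨U k false, hk, rfl⟩
    · exact ⟨zz, trivial, rfl⟩
    · exact ⟨zc, trivial, rfl⟩
    · exact ⟨lz, trivial, rfl⟩
  · rintro ⟨a, ha, rfl⟩
    rcases a with i | i | ⟨i, c⟩ | ⟨i, c⟩ | ⟨i, c⟩ | i | ⟨i, c⟩ | ⟨i, c⟩ | _ | _ | _
    · exact Or.inl (Or.inl (Or.inl ⟨i, ha, by simp [code]⟩))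
    · exact Or.inl (Or.inl (Or.inl ⟨i, ha, by simp [code]⟩))
    · exact Or.inl (Or.inl (Or.inr ⟨i, ha, by cases c <;> simp [code]⟩))
    · exact Or.inl (Or.inl (Or.inr ⟨i, ha, by cases c <;> simp [code]⟩))
    · exact Or.inl (Or.inl (Or.inr ⟨i, ha, by cases c <;> simp [code]⟩))
    · exact Or.inl (Or.inr ⟨i, ha, by simp [code]⟩)
    · exact Or.inl (Or.inr ⟨i, ha, by cases c <;> simp [code]⟩)
    · exact Or.inl (Or.inr ⟨i, ha, by cases c <;> simp [code]⟩)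
    · exact Or.inr (by simp [code])
    · exact Or.inr (by simp [code])
    · exact Or.inr (by simp [code])

theorem mem_E {φ : N3} {e : ℕ × ℕ} :
    e ∈ (red φ).2 ↔ ∃ a b, B (dat φ) a b ∧ e = (code a, code b) := by
  unfold red lC lG
  simp only [List.mem_append, List.mem_flatMap, List.mem_range, List.mem_cons, List.not_mem_nil,
    or_false]
  constructor
  · rintro (⟨y, hy, rfl | rfl⟩ | ⟨j, hj, rfl | rfl | rfl | rfl | rfl | rfl | rfl | rfl | rfl |
      rfl | rfl | rfl | rfl | rfl⟩ | rfl | ⟨k, hk, rfl | rfl | rfl | rfl | rfl | rfl | rfl | rfl⟩)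
    · exact ⟨le y, va y, ⟨rfl, hy⟩, rfl⟩
    · exact ⟨zc, va y, hy, rfl⟩
    · exact ⟨p j true, r j true, ⟨rfl, hj⟩, rfl⟩
    · exact ⟨p j true, r j false, ⟨rfl, hj⟩, rfl⟩
    · exact ⟨p j false, r j true, ⟨rfl, hj⟩, rfl⟩
    · exact ⟨p j false, r j false, ⟨rfl, hj⟩, rfl⟩
    · exact ⟨q j true, r j true, ⟨rfl, hj⟩, rfl⟩
    · exact ⟨q j true, r j false, ⟨rfl, hj⟩, rfl⟩
    · exact ⟨q j false, r j true, ⟨rfl, hj⟩, rfl⟩
    · exact ⟨q j false, r j false, ⟨rfl, hj⟩, rfl⟩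
    · exact ⟨q j true, va _, ⟨Or.inl rfl, hj⟩, rfl⟩
    · exact ⟨q j true, va _, ⟨Or.inr (Or.inl rfl), hj⟩, rfl⟩
    · exact ⟨q j true, va _, ⟨Or.inr (Or.inr rfl), hj⟩, rfl⟩
    · exact ⟨q j false, va _, ⟨Or.inl rfl, hj⟩, rfl⟩
    · exact ⟨q j false, va _, ⟨Or.inr (Or.inl rfl), hj⟩, rfl⟩
    · exact ⟨q j false, va _, ⟨Or.inr (Or.inr rfl), hj⟩, rfl⟩
    · exact ⟨zc, lz, trivial, rfl⟩
    · exact ⟨zc, xx k, hk, rfl⟩
    · exact ⟨zz, xx k, hk, rfl⟩
    · exact ⟨xx k, R k true, ⟨rfl, hk⟩, rfl⟩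
    · exact ⟨xx k, R k false, ⟨rfl, hk⟩, rfl⟩
    · exact ⟨U k true, R k true, ⟨rfl, hk⟩, rfl⟩
    · exact ⟨U k true, R k false, ⟨rfl, hk⟩, rfl⟩
    · exact ⟨U k false, R k true, ⟨rfl, hk⟩, rfl⟩
    · exact ⟨U k false, R k false, ⟨rfl, hk⟩, rfl⟩
  · rintro ⟨a, b, h, rfl⟩
    rcases a with i | i | ⟨i, c⟩ | ⟨i, c⟩ | ⟨i, c⟩ | i | ⟨i, c⟩ | ⟨i, c⟩ | _ | _ | _ <;>
      rcases b with j | j | ⟨j, d⟩ | ⟨j, d⟩ | ⟨j, d⟩ | j | ⟨j, d⟩ | ⟨j, d⟩ | _ | _ | _ <;>
      simp only [B] at h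
    · obtain ⟨rfl, h⟩ := h
      exact Or.inl ⟨i, h, by simp [code]⟩
    · obtain ⟨rfl, h⟩ := h
      exact Or.inr (Or.inl ⟨j, h, by cases c <;> cases d <;> simp [code]⟩)
    · obtain ⟨hh, h⟩ := h
      refine Or.inr (Or.inl ⟨i, h, ?_⟩)
      rcases hh with rfl | rfl | rfl <;> cases c <;> simp [code, dat]
    · obtain ⟨rfl, h⟩ := h
      exact Or.inr (Or.inl ⟨j, h, by cases c <;> cases d <;> simp [code]⟩)
    · obtain ⟨rfl, h⟩ := h
      exact Or.inr (Or.inr (Or.inr ⟨j, h, by cases d <;> simp [code]⟩))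
    · obtain ⟨rfl, h⟩ := h
      exact Or.inr (Or.inr (Or.inr ⟨j, h, by cases c <;> cases d <;> simp [code]⟩))
    · exact Or.inr (Or.inr (Or.inr ⟨j, h, by simp [code]⟩))
    · exact Or.inl ⟨j, h, by simp [code]⟩
    · exact Or.inr (Or.inr (Or.inr ⟨j, h, by simp [code]⟩))
    · exact Or.inr (Or.inr (Or.inl (by simp [code])))

theorem B_vl {D : Dat} (hD : Good D) {a b : Vx} (h : B D a b) : Vl D a ∧ Vl D b ∧ a ≠ b := by
  rcases a with i | i | ⟨i, c⟩ | ⟨i, c⟩ | ⟨i, c⟩ | i | ⟨i, c⟩ | ⟨i, c⟩ | _ | _ | _ <;>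
    rcases b with j | j | ⟨j, d⟩ | ⟨j, d⟩ | ⟨j, d⟩ | j | ⟨j, d⟩ | ⟨j, d⟩ | _ | _ | _ <;>
    simp only [B] at h
  · obtain ⟨rfl, h⟩ := h
    exact ⟨h, h, by simp⟩
  · obtain ⟨rfl, h⟩ := h
    exact ⟨h, h, by simp⟩
  · exact ⟨h.2, hD _ h.2 _ h.1, by simp⟩
  · obtain ⟨rfl, h⟩ := h
    exact ⟨h, h, by simp⟩
  · obtain ⟨rfl, h⟩ := h
    exact ⟨h, h, by simp⟩
  · obtain ⟨rfl, h⟩ := h
    exact ⟨h, h, by simp⟩
  · exact ⟨trivial, h, by simp⟩
  · exact ⟨trivial, h, by simp⟩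
  · exact ⟨trivial, h, by simp⟩
  · exact ⟨trivial, trivial, by simp⟩

theorem isGraph_red {φ : N3} (hb : BN φ) : IsGraph (red φ) := by
  refine ⟨List.nodup_dedup _, ?_⟩
  intro e he
  obtain ⟨a, b, h, rfl⟩ := mem_E.1 he
  obtain ⟨h1, h2, h3⟩ := B_vl (good_dat hb) h
  exact ⟨mem_V.2 ⟨a, h1, rfl⟩, mem_V.2 ⟨b, h2, rfl⟩, fun h => h3 (code_inj h)⟩

theorem adj_iff {φ : N3} {a b : Vx} : Adj (red φ) (code a) (code b) ↔ Ad (dat φ) a b := by
  unfold Adj Ad
  rw [mem_E, mem_E]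
  constructor
  · rintro (⟨c, d, h, he⟩ | ⟨c, d, h, he⟩)
    · rw [Prod.mk.injEq] at he
      rw [code_inj he.1, code_inj he.2]
      exact Or.inl h
    · rw [Prod.mk.injEq] at he
      rw [code_inj he.1, code_inj he.2]
      exact Or.inr h
  · rintro (h | h)
    · exact Or.inl ⟨a, b, h, rfl⟩
    · exact Or.inr ⟨b, a, h, rfl⟩

theorem Ad.vl {D : Dat} (hD : Good D) {a b : Vx} (h : Ad D a b) : Vl D a ∧ Vl D b := by
  rcases h with h | h
  · exact ⟨(B_vl hD h).1, (B_vl hD h).2.1⟩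
  · exact ⟨(B_vl hD h).2.1, (B_vl hD h).1⟩

theorem adj_code {φ : N3} {a : Vx} {w : ℕ} (h : Adj (red φ) (code a) w) :
    ∃ b, code b = w ∧ Ad (dat φ) a b := by
  have h' := h
  unfold Adj at h
  rw [mem_E, mem_E] at h
  rcases h with ⟨c, d, _, he⟩ | ⟨c, d, _, he⟩
  · rw [Prod.mk.injEq] at he
    refine ⟨d, he.2.symm, ?_⟩
    rw [he.2] at h'
    exact adj_iff.1 h'
  · rw [Prod.mk.injEq] at he
    refine ⟨c, he.1.symm, ?_⟩
    rw [he.1] at h'
    exact adj_iff.1 h'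

theorem isLD_iff {φ : N3} {S : Set ℕ} :
    IsLD (red φ) S ↔ LD (dat φ) {a | code a ∈ S} := by
  constructor
  · rintro ⟨h1, h2⟩
    constructor
    · intro a ha hn
      obtain ⟨u, hu, hau⟩ := h1 (code a) (mem_V.2 ⟨a, ha, rfl⟩) hn
      obtain ⟨b, rfl, hb⟩ := adj_code hau
      exact ⟨b, hu, hb⟩
    · intro a b ha hb na nb hab
      by_contra hc
      push Not at hc
      refine h2 (code a) (mem_V.2 ⟨a, ha, rfl⟩) (code b) (mem_V.2 ⟨b, hb, rfl⟩) na nb
        (fun h => hab (code_inj h)) ?_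
      ext w
      simp only [Set.mem_inter_iff, Set.mem_ofPred_eq]
      constructor
      · rintro ⟨h3, h4⟩
        obtain ⟨c, rfl, h5⟩ := adj_code h3
        exact ⟨adj_iff.2 ((hc c h4).1 h5), h4⟩
      · rintro ⟨h3, h4⟩
        obtain ⟨c, rfl, h5⟩ := adj_code h3
        exact ⟨adj_iff.2 ((hc c h4).2 h5), h4⟩
  · rintro ⟨h1, h2⟩
    constructor
    · intro v hv hn
      obtain ⟨a, ha, rfl⟩ := mem_V.1 hv
      obtain ⟨b, hb, hab⟩ := h1 a ha hn
      exact ⟨code b, hb, adj_iff.2 hab⟩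
    · intro u hu v hv nu nv huv he
      obtain ⟨a, ha, rfl⟩ := mem_V.1 hu
      obtain ⟨b, hb, rfl⟩ := mem_V.1 hv
      obtain ⟨c, hc, hcc⟩ := h2 a b ha hb nu nv (fun h => huv (by rw [h]))
      apply hcc
      have := Set.ext_iff.1 he (code c)
      simp only [Set.mem_inter_iff, Set.mem_ofPred_eq, adj_iff] at this
      exact ⟨fun h => (this.1 ⟨h, hc⟩).1, fun h => (this.2 ⟨h, hc⟩).1⟩

theorem part_eq {φ : N3} (f : ℕ → ℕ) (i : ℕ) :
    {a | code a ∈ part (red φ) f i} = cl (dat φ) (fun a => f (code a)) i := by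
  ext a
  simp only [part, cl, Set.mem_ofPred_eq, mem_V]
  constructor
  · rintro ⟨⟨b, hb, he⟩, h⟩
    rw [← code_inj he]
    rw [← he] at h
    exact ⟨hb, h⟩
  · rintro ⟨h1, h2⟩
    exact ⟨⟨a, h1, rfl⟩, h2⟩

theorem isLD_part {φ : N3} (f : ℕ → ℕ) (i : ℕ) :
    IsLD (red φ) (part (red φ) f i) ↔ LD (dat φ) (cl (dat φ) (fun a => f (code a)) i) := by
  rw [isLD_iff, part_eq]

theorem isLD_union {φ : N3} (f : ℕ → ℕ) (i j : ℕ) :
    IsLD (red φ) (part (red φ) f i ∪ part (red φ) f j) ↔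
    LD (dat φ) (cl (dat φ) (fun a => f (code a)) i ∪ cl (dat φ) (fun a => f (code a)) j) := by
  rw [isLD_iff, ← part_eq, ← part_eq]
  rfl

theorem rtg_rev {r : ℕ → ℕ → Prop} (hr : ∀ u v, r u v → r v u) {u v : ℕ}
    (h : Relation.ReflTransGen r u v) : Relation.ReflTransGen r v u := by
  induction h with
  | refl => exact Relation.ReflTransGen.refl
  | tail _ h2 ih => exact Relation.ReflTransGen.head (hr _ _ h2) ih

theorem connected_red {φ : N3} (hb : BN φ) : Connected (red φ) := by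
  have hD := good_dat hb
  have hsymm : ∀ u v, Adj (red φ) u v → Adj (red φ) v u := fun u v h => h.symm
  have hst : ∀ {a b}, Ad (dat φ) a b → Relation.ReflTransGen (Adj (red φ)) (code a) (code b) :=
    fun h => Relation.ReflTransGen.single (adj_iff.2 h)
  have h1 : ∀ y, y < (dat φ).n → Relation.ReflTransGen (Adj (red φ)) (code (va y)) (code zc) :=
    fun y hy => hst (Or.inr hy)
  have h2 : ∀ j b, j < (dat φ).m →
      Relation.ReflTransGen (Adj (red φ)) (code (q j b)) (code zc) := fun j b hj =>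
    (hst (a := q j b) (b := va ((dat φ).t j).1) (Or.inl ⟨Or.inl rfl, hj⟩)).trans
      (h1 _ (hD j hj _ (Or.inl rfl)))
  have h3 : ∀ j b, j < (dat φ).m →
      Relation.ReflTransGen (Adj (red φ)) (code (r j b)) (code zc) := fun j b hj =>
    (hst (a := r j b) (b := q j true) (Or.inr ⟨rfl, hj⟩)).trans (h2 _ _ hj)
  have h4 : ∀ k, k < 4 → Relation.ReflTransGen (Adj (red φ)) (code (xx k)) (code zc) :=
    fun k hk => hst (Or.inr hk)
  have h5 : ∀ k b, k < 4 → Relation.ReflTransGen (Adj (red φ)) (code (R k b)) (code zc) :=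
    fun k b hk => (hst (a := R k b) (b := xx k) (Or.inr ⟨rfl, hk⟩)).trans (h4 _ hk)
  have key : ∀ a, Vl (dat φ) a → Relation.ReflTransGen (Adj (red φ)) (code a) (code zc) := by
    intro a ha
    rcases a with i | i | ⟨i, c⟩ | ⟨i, c⟩ | ⟨i, c⟩ | i | ⟨i, c⟩ | ⟨i, c⟩ | _ | _ | _
    · exact h1 i ha
    · exact (hst (a := le i) (b := va i) (Or.inl ⟨rfl, ha⟩)).trans (h1 i ha)
    · exact h3 i c ha
    · exact (hst (a := p i c) (b := r i true) (Or.inl ⟨rfl, ha⟩)).trans (h3 i _ ha)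
    · exact h2 i c ha
    · exact h4 i ha
    · exact h5 i c ha
    · exact (hst (a := U i c) (b := R i true) (Or.inl ⟨rfl, ha⟩)).trans (h5 i _ ha)
    · exact (hst (a := zz) (b := xx 0) (Or.inl (show 0 < 4 by omega))).trans (h4 0 (by omega))
    · exact Relation.ReflTransGen.refl
    · exact hst (Or.inr trivial)
  refine ⟨?_, ?_⟩
  · intro h
    have : code zc ∈ (red φ).1 := mem_V.2 ⟨zc, trivial, rfl⟩
    rw [h] at this
    simp at this
  · intro u hu v hv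
    obtain ⟨a, ha, rfl⟩ := mem_V.1 hu
    obtain ⟨b, hb', rfl⟩ := mem_V.1 hv
    exact (key a ha).trans (rtg_rev hsymm (key b hb'))

theorem gf_lt {D : Dat} (τ : ℕ → Bool) {a : Vx} (ha : Vl D a) : gf τ a < 7 := by
  rcases a with i | i | ⟨i, c⟩ | ⟨i, c⟩ | ⟨i, c⟩ | i | ⟨i, c⟩ | ⟨i, c⟩ | _ | _ | _ <;>
    simp only [gf] <;> (try split_ifs) <;> (try omega)
  exact lt_trans ha (by omega)

theorem red_correct {φ : N3} (hb : BN φ) : NAE3 φ ↔ LDCk 7 (red φ) := by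
  have hD := good_dat hb
  rw [nae3_iff]
  constructor
  · rintro ⟨τ, h⟩
    have hτ : SatD (dat φ) τ := h
    refine ⟨isGraph_red hb, connected_red hb, 7, le_rfl, fun w => gf τ (Function.invFun code w), ?_⟩
    have hf : ∀ a, Function.invFun code (code a) = a := Function.leftInverse_invFun code_inj
    refine ⟨?_, ?_, ?_⟩
    · intro v hv
      obtain ⟨a, ha, rfl⟩ := mem_V.1 hv
      simp only [hf]
      exact gf_lt τ ha
    · intro i hi
      have : ∃ a, Vl (dat φ) a ∧ gf τ a = i := by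
        by_cases h4 : i < 4
        · exact ⟨xx i, h4, rfl⟩
        have h3 : i = 4 ∨ i = 5 ∨ i = 6 := by omega
        rcases h3 with rfl | rfl | rfl
        · exact ⟨zc, trivial, rfl⟩
        · exact ⟨lz, trivial, rfl⟩
        · exact ⟨zz, trivial, rfl⟩
      obtain ⟨a, ha, hai⟩ := this
      exact ⟨code a, mem_V.2 ⟨a, ha, rfl⟩, by simp only [hf]; exact hai⟩
    · intro i hi
      simp only [isLD_part, isLD_union, hf]
      exact forward hD hτ i hi
  · rintro ⟨-, -, k, hk, f, -, -, h⟩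
    obtain ⟨S, T, hS, hT, hST⟩ := exists_disjoint (D := dat φ) hk
      (fun i => cl (dat φ) (fun a => f (code a)) i)
      (fun i j a h1 h2 => h1.2.symm.trans h2.2) (by
        intro i hi
        have := h i hi
        simp only [isLD_part, isLD_union] at this
        exact this)
    exact of_disjoint hS hT hST hD

/-! ### Polynomial time -/

theorem poly_lV : NPC.Poly (fun φ : N3 => lV (3 * φ.length) φ.length) := by
  have h : UPoly (fun φ : N3 => φ.length) := UPoly.length NPC.Poly.id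
  have h1 : NPC.Poly (fun φ : N3 => List.range (3 * φ.length)) :=
    (UPoly.mul (UPoly.const 3) h).range
  have h2 : NPC.Poly (fun φ : N3 => List.range φ.length) := h.range
  unfold lV
  exact poly_dedup (by fun_prop)

theorem poly_red : NPC.Poly red := by
  have h : UPoly (fun φ : N3 => φ.length) := UPoly.length NPC.Poly.id
  have h1 : NPC.Poly (fun φ : N3 => List.range (3 * φ.length)) :=
    (UPoly.mul (UPoly.const 3) h).range
  have h2 : NPC.Poly (fun φ : N3 => List.range φ.length) := h.range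
  have h3 : NPC.Poly (fun φ : N3 => (List.range (3 * φ.length)).flatMap
      (fun y => [(16 * y + 1, 16 * y), (14, 16 * y)])) := by fun_prop
  have h4 : NPC.Poly (fun φ : N3 => (List.range φ.length).flatMap (fun j => lC j (tr φ j))) := by
    refine NPC.Poly.flatMap h2 (F := fun (φ : N3) (j : ℕ) => lC j (tr φ j)) ?_
    unfold lC
    fun_prop
  exact NPC.Poly.pair poly_lV (NPC.Poly.append h3 (NPC.Poly.append h4 (NPC.Poly.const _)))

theorem hardPr : HardPr (fun I => IsGraph I ∧ Connected I) (LDCk 7) :=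
  hardPr_NAE3.trans poly_red (fun _ hb => ⟨isGraph_red hb, connected_red hb⟩)
    fun _ hb => red_correct hb

theorem hardPr2 : HardPr (fun x : Gr × ℕ => IsGraph x.1 ∧ Connected x.1) LDC :=
  hardPr.trans (f := fun I => (I, 7)) (by fun_prop) (fun _ h => h) fun _ _ => Iff.rfl

end Pool.Agent.R158.LDC
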